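import Pool.Agent.Helper52.OD.Base

/-! CCL: countable closure (packet of project OD). -/

namespace Pool.Agent.Helper17.OD.PkCCL

open Set Pk52

/-- The order of the natural numbers, as a set of trees. -/
def natR : Set T := {p | ∃ m n : ℕ, m < n ∧ p = .pr (.nat m) (.nat n)}

theorem natR_mem (hTRE : G_TRE) {k : O} {S : Set (Set T)} [h : SOM k S S] : natR ∈ S := by
  obtain ⟨-, -, -, -, -, -, -, hN, -⟩ := hTRE k S S h
  have hk : (0 : O) < k := h.lim.bot_lt
  refine SOM.of_SD (S := S) hk ?_ ?_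
  · rintro _ ⟨m, n, -, rfl⟩
    exact pr_mem.2 ⟨nat_mem _ _, nat_mem _ _⟩
  · have h1 : SD k S S (fun e _ => e = .pr e.fst e.snd ∧ ((∃ n : ℕ, e.fst = .nat n) ∧
        ((∃ n : ℕ, e.snd = .nat n) ∧ e.fst.llt e.snd))) := by
      refine SD.and (SD.eq ST.id (ST.pr (ST.fst ST.id) (ST.snd ST.id))) (SD.and ?_ (SD.and ?_ ?_))
      · exact SD.app1 (R := fun e => ∃ n : ℕ, e = .nat n) hN (ST.fst ST.id)
      · exact SD.app1 (R := fun e => ∃ n : ℕ, e = .nat n) hN (ST.snd ST.id)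
      · exact SD.llt (ST.fst ST.id) (ST.snd ST.id)
    refine h1.congr ?_
    intro e _ σ _
    constructor
    · rintro ⟨h2, ⟨m, hm⟩, ⟨n, hn⟩, h3⟩
      rw [hm, hn] at h3
      exact ⟨m, n, h3, by rw [h2, hm, hn]⟩
    · rintro ⟨m, n, hmn, rfl⟩
      exact ⟨rfl, ⟨m, rfl⟩, ⟨n, rfl⟩, hmn⟩

/-- The natural numbers as trees and as ordinals. -/
theorem natO (hTRE : G_TRE) (hRNK : G_RNK) {k : O} {S : Set (Set T)} [h : SOM k S S] :
    SD k S S (fun e _ => ∃ n : ℕ, e.fst = .nat n ∧ e.snd = .ord (n : O)) := by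
  have hR : natR ∈ S := natR_mem hTRE (k := k)
  obtain ⟨-, ρ, b, hb, -, hρ, -, hgr⟩ := hRNK k S S h natR hR (by
    intro Y _ hY
    by_cases hc : ∃ n : ℕ, (Tr.nat n : T) ∈ Y
    · classical
      refine ⟨.nat (Nat.find hc), Nat.find_spec hc, ?_⟩
      rintro z hz ⟨m, n, hmn, he⟩
      injection he with h1 h2
      injection h2 with h2
      subst h1
      exact Nat.find_min hc (h2 ▸ hmn) hz
    · obtain ⟨y, hy⟩ := hY
      refine ⟨y, hy, ?_⟩
      rintro z hz ⟨m, n, hmn, he⟩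
      injection he with h1 h2
      exact hc ⟨n, h2 ▸ hy⟩)
  have hv : ∀ n : ℕ, ρ (.nat n) = (n : O) := by
    intro n
    induction n using Nat.strong_induction_on with
    | _ n ih =>
      refine eq_of_forall_lt_iff (fun a => ?_)
      rw [hρ]
      constructor
      · rintro ⟨y, ⟨m, n', hmn, he⟩, hy⟩
        injection he with h1 h2
        injection h2 with h2
        subst h1
        rw [ih m (h2 ▸ hmn)] at hy
        exact hy.trans_lt (by exact_mod_cast (h2 ▸ hmn))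
      · intro ha
        obtain ⟨m, rfl⟩ := Ordinal.lt_omega0.1 (ha.trans (Ordinal.natCast_lt_omega0 n))
        have hmn : m < n := by exact_mod_cast ha
        exact ⟨.nat m, ⟨m, n, hmn, rfl⟩, (ih m hmn).ge⟩
  have hk : (0 : O) < k := h.lim.bot_lt
  have hg := hgr 0 hk
  obtain ⟨-, -, -, -, -, -, -, hN, -⟩ := hTRE k S S h
  have h1 : SD k S S (fun e _ => (∃ n : ℕ, e.fst = .nat n) ∧
      Tr.pr e.fst e.snd ∈ gr (D (Iio (0 : O))) (fun x => .ord (ρ x))) := by
    refine SD.and (SD.app1 (R := fun e => ∃ n : ℕ, e = .nat n) hN (ST.fst ST.id)) ?_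
    exact SD.mem (ST.pr (ST.fst ST.id) (ST.snd ST.id)) (SV.par hg)
  refine h1.congr ?_
  intro e _ σ _
  constructor
  · rintro ⟨⟨n, hn⟩, x, hx, he⟩
    injection he with h2 h3
    refine ⟨n, hn, ?_⟩
    rw [h3, ← h2, hn]
    exact congrArg Tr.ord (hv n)
  · rintro ⟨n, hn, hs⟩
    refine ⟨⟨n, hn⟩, .nat n, nat_mem _ _, ?_⟩
    rw [hn, hs]
    exact congrArg (fun z => Tr.pr (Tr.nat n) (Tr.ord z)) (hv n).symm

open Classical in
/-- The natural number of a finite ordinal. -/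
noncomputable def nn (x : O) : ℕ := if h : ∃ n : ℕ, x = (n : O) then h.choose else 0

theorem nn_cast (n : ℕ) : nn (n : O) = n := by
  have h : ∃ m : ℕ, ((n : ℕ) : O) = (m : O) := ⟨n, rfl⟩
  rw [nn, dif_pos h]
  have := h.choose_spec
  exact_mod_cast this.symm

theorem thm (hLMT : G_LMT) (hSPL : G_SPL) (hPBD : G_PBD) (hPUN : G_PUN) (hPRO : G_PRO)
    (hLNS : G_LNS) (hTRE : G_TRE) (hRNK : G_RNK) : G_CCL := by
  intro F q₀ hqM₀ hqP₀ hdec₀
  have hM : SOM F.γ F.M F.M := F.g.m1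
  obtain ⟨pun1, pun2⟩ := hPUN F
  obtain ⟨pre1, pre2, -, -, -⟩ := hPRO F
  obtain ⟨-, bdD, bmono, bsup, bln0, -, blow, -⟩ := hPBD F
  have hκγ : F.κ < F.γ := F.g.kg
  set l : O := Ordinal.omega0 with hl_def
  set q : O → T := fun x => q₀ (nn x) with hq_def
  have hl : Order.IsSuccLimit l := Ordinal.isSuccLimit_omega0
  have hlw : l < F.w := F.g.omw
  have hlκ : l < F.κ := hlw.trans F.g.wk
  have hqP : ∀ x < l, q x ∈ F.P F.κ := fun x _ => hqP₀ _
  have hdec : ∀ x y, x < y → y < l → F.Le F.κ (q y) (q x) := by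
    have h1 : ∀ m d : ℕ, F.Le F.κ (q₀ (m + d)) (q₀ m) := by
      intro m d
      induction d with
      | zero => exact pre1 _ _
      | succ d ih => exact pre2 _ _ _ _ (hdec₀ (m + d)) ih
    intro x y hxy hy
    obtain ⟨n, rfl⟩ := Ordinal.lt_omega0.1 hy
    obtain ⟨m, rfl⟩ := Ordinal.lt_omega0.1 (hxy.trans hy)
    have hmn : m < n := by exact_mod_cast hxy
    have h2 := h1 m (n - m)
    rw [Nat.add_sub_cancel' hmn.le] at h2
    simp only [hq_def, nn_cast]
    exact h2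
  have hl0 : 0 < l := hl.bot_lt
  have hqD' : ∀ n, q₀ n ∈ D (Iio F.κ) := fun n => bdD F.κ (hqP₀ n)
  have hqD : ∀ x < l, q x ∈ D (Iio F.γ) := fun x hx =>
    D_mono (Iio_subset_Iio hκγ.le) (bdD F.κ (hqP x hx))
  have hqM : grt l q ∈ F.M := by
    refine grt_mem (d := F.κ) ?_ hlκ.le (fun x hx => hqD' _) hκγ
    have h1 : SD F.γ F.M F.M (fun e _ => ∃ a ∈ D (Iio F.γ),
        ((∃ n : ℕ, a = .nat n ∧ e.fst = .ord (n : O)) ∧ Tr.pr a e.snd ∈ sq q₀)) := by
      refine SD.exT (P := fun e a _ => ((∃ n : ℕ, a = .nat n ∧ e.fst = .ord (n : O)) ∧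
        Tr.pr a e.snd ∈ sq q₀)) (SD.and ?_ ?_)
      · exact SD.app2 (R := fun a b => ∃ n : ℕ, a = .nat n ∧ b = .ord (n : O)) (natO hTRE hRNK)
          (ST.fst ST.id) (ST.fst (ST.snd ST.id))
      · exact SD.mem (ST.pr (ST.fst ST.id) (ST.snd (ST.snd ST.id))) (SV.par hqM₀)
    refine h1.congr ?_
    intro e _ σ _
    constructor
    · rintro ⟨a, -, ⟨n, rfl, h2⟩, m, h3⟩
      injection h3 with h3 h4
      injection h3 with h3
      subst h3
      refine ⟨(n : O), Ordinal.natCast_lt_omega0 n, h2, ?_⟩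
      simp only [hq_def, nn_cast]
      exact h4
    · rintro ⟨x, hx, h2, h3⟩
      obtain ⟨n, rfl⟩ := Ordinal.lt_omega0.1 hx
      refine ⟨.nat n, nat_mem _ _, ⟨n, rfl, h2⟩, n, ?_⟩
      rw [h3]
      simp only [hq_def, nn_cast]
  have hlen : ∀ x < l, ∀ i < F.κ, ln (q x) i < F.η i := fun x hx i hi =>
    ((pun2 F.κ (q x)).1 (hqP x hx)).len i hi hi
  -- lengths are bounded
  have hLn : ∀ i < F.κ, SD F.γ F.M F.M (fun e _ => ∃ x < l, e.fst = .ord x ∧
      e.snd = .ord (ln (q x) i)) := by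
    intro i hi
    have h1 : SD F.γ F.M F.M (fun e _ => ∃ p ∈ D (Iio F.γ), ((∃ x < l, e.fst = .ord x ∧ p = q x) ∧
        (∃ i' y : O, (.ord i : T) = .ord i' ∧ e.snd = .ord y ∧ ln p i' = y))) := by
      refine SD.exT (P := fun e p _ => ((∃ x < l, e.fst = .ord x ∧ p = q x) ∧
        (∃ i' y : O, (.ord i : T) = .ord i' ∧ e.snd = .ord y ∧ ln p i' = y))) (SD.and ?_ ?_)
      · exact SD.app2 (R := fun a p => ∃ x < l, a = .ord x ∧ p = q x) (sdQ hqM)
          (ST.fst (ST.snd ST.id)) (ST.fst ST.id)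
      · exact SD.app3 (R := fun p a b => ∃ i' y : O, a = .ord i' ∧ b = .ord y ∧ ln p i' = y)
          (sdLnE hLNS) (ST.fst ST.id) (ST.ordc (hi.trans hκγ)) (ST.snd (ST.snd ST.id))
    refine h1.congr ?_
    intro e he σ _
    constructor
    · rintro ⟨p, -, ⟨x, hx, h2, rfl⟩, i', y, h3, h4, h5⟩
      injection h3 with h3
      subst h3
      exact ⟨x, hx, h2, by rw [h4, h5]⟩
    · rintro ⟨x, hx, h2, h3⟩
      exact ⟨q x, hqD x hx, ⟨x, hx, h2, rfl⟩, i, _, rfl, h3, rfl⟩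
  have hbd : ∀ i < F.κ, ∃ a < F.η i, ∀ x < l, ln (q x) i ≤ a := by
    intro i hi
    have hli : l < F.η i := hlw.trans (F.e.low i hi).1
    obtain ⟨b, hb, hb'⟩ := bound (S := F.M) (F.e.reg i hi) ((hl0.trans hli)) ((F.e.lt i hi).trans hκγ) hli
      (fun x => ln (q x) i) (fun x hx => hlen x hx i hi) (hLn i hi)
    exact ⟨b, hb, fun x hx => (hb' x hx).le⟩
  -- supports are bounded
  have hsupp : ∃ d < F.κ, ∀ x < l, ∀ i, d ≤ i → ln (q x) i = 0 := by
    classical
    have hex : ∀ x < l, ∃ d, d < F.κ ∧ ∀ i, d ≤ i → ln (q x) i = 0 := by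
      intro x hx
      obtain ⟨-, d, hd, hd'⟩ := bsup F.κ (q x) (hqP x hx)
      exact ⟨d, hd, fun i hi => (hd' i hi).1⟩
    let v : O → O := fun x => sInf {d | ∀ i, d ≤ i → ln (q x) i = 0}
    have hv1 : ∀ x < l, ∀ i, v x ≤ i → ln (q x) i = 0 := by
      intro x hx
      obtain ⟨d, -, hd'⟩ := hex x hx
      exact csInf_mem (s := {d | ∀ i, d ≤ i → ln (q x) i = 0}) ⟨d, hd'⟩
    have hv2 : ∀ x < l, v x < F.κ := by
      intro x hx
      obtain ⟨d, hd, hd'⟩ := hex x hx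
      exact (csInf_le' (s := {d | ∀ i, d ≤ i → ln (q x) i = 0}) hd').trans_lt hd
    have hv3 : ∀ x < l, ∀ d, (∀ i, d ≤ i → ln (q x) i = 0) → v x ≤ d := by
      intro x hx d hd
      exact csInf_le' (s := {d | ∀ i, d ≤ i → ln (q x) i = 0}) hd
    have hL := hLNS F.γ F.M F.M hM
    -- b bounds the support of p
    let B : T → T → Prop := fun p b => ∀ i ∈ D (Iio F.γ), (i.IsOrd → (¬ i.llt b → ¬ LnT p i (.ord 0)))
    have hB : SD F.γ F.M F.M (fun e _ => B e.fst e.snd) := by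
      refine SD.allT (P := fun e i _ => (i.IsOrd → (¬ i.llt e.snd → ¬ LnT e.fst i (.ord 0)))) ?_
      refine SD.imp (SD.isOrd (ST.fst ST.id)) (SD.imp (SD.not (SD.llt (ST.fst ST.id)
        (ST.snd (ST.snd ST.id)))) (SD.not ?_))
      exact SD.app3 (R := LnT) hL (ST.fst (ST.snd ST.id)) (ST.fst ST.id)
        (ST.ordc ((hl0.trans hlκ).trans hκγ))
    have hB' : ∀ x < l, ∀ b < F.γ, B (q x) (.ord b) ↔ v x ≤ b := by
      intro x hx b hb
      constructor
      · intro h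
        refine hv3 x hx b (fun i hi => ?_)
        by_cases hiγ : i < F.γ
        · have h2 := h (.ord i) (ord_mem.2 hiγ) trivial (not_lt.2 hi)
          by_contra h3
          exact h2 ⟨i, 0, rfl, rfl, pos_iff_ne_zero.2 h3⟩
        · exact bln0 F.κ (q x) (hqP x hx) i (hκγ.le.trans (not_lt.1 hiγ))
      · intro h i hi1 hi2 hi3
        cases i with
        | nat n => exact hi2.elim
        | pr a b => exact hi2.elim
        | ord i =>
          rintro ⟨i', z, h4, h5, h6⟩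
          injection h4 with h4
          injection h5 with h5
          subst h4 h5
          rw [hv1 x hx i (h.trans (not_lt.1 hi3))] at h6
          exact lt_irrefl _ h6
    have hV : SD F.γ F.M F.M (fun e _ => ∃ x < l, e.fst = .ord x ∧ e.snd = .ord (v x)) := by
      have h1 : SD F.γ F.M F.M (fun e _ => ∃ p ∈ D (Iio F.γ), ((∃ x < l, e.fst = .ord x ∧ p = q x) ∧
          (e.snd.IsOrd ∧ (B p e.snd ∧ ∀ z ∈ D (Iio F.γ), (z.IsOrd → (z.llt e.snd → ¬ B p z)))))) := by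
        refine SD.exT (P := fun e p _ => ((∃ x < l, e.fst = .ord x ∧ p = q x) ∧
          (e.snd.IsOrd ∧ (B p e.snd ∧ ∀ z ∈ D (Iio F.γ), (z.IsOrd → (z.llt e.snd → ¬ B p z)))))) ?_
        refine SD.and ?_ (SD.and ?_ (SD.and ?_ ?_))
        · exact SD.app2 (R := fun a p => ∃ x < l, a = .ord x ∧ p = q x) (sdQ hqM)
            (ST.fst (ST.snd ST.id)) (ST.fst ST.id)
        · exact SD.isOrd (ST.snd (ST.snd ST.id))
        · exact SD.app2 (R := B) hB (ST.fst ST.id) (ST.snd (ST.snd ST.id))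
        · refine SD.allT (P := fun e z _ => (z.IsOrd → (z.llt e.snd.snd → ¬ B e.fst z))) ?_
          refine SD.imp (SD.isOrd (ST.fst ST.id)) (SD.imp (SD.llt (ST.fst ST.id)
            (ST.snd (ST.snd (ST.snd ST.id)))) (SD.not ?_))
          exact SD.app2 (R := B) hB (ST.fst (ST.snd ST.id)) (ST.fst ST.id)
      refine h1.congr ?_
      intro e he σ _
      constructor
      · rintro ⟨p, -, ⟨x, hx, h2, rfl⟩, h3, h4, h5⟩
        refine ⟨x, hx, h2, ?_⟩
        cases h6 : e.snd with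
        | nat n => rw [h6] at h3; exact h3.elim
        | pr a b => rw [h6] at h3; exact h3.elim
        | ord y =>
          rw [h6] at h4 h5
          have hy : y < F.γ := by
            have h7 := snd_mem he
            rw [h6, ord_mem] at h7
            exact h7
          have h7 := (hB' x hx y hy).1 h4
          rcases h7.lt_or_eq with h8 | h8
          · exact (h5 (.ord (v x)) (ord_mem.2 (h8.trans hy)) trivial h8
              ((hB' x hx _ (h8.trans hy)).2 le_rfl)).elim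
          · rw [h8]
      · rintro ⟨x, hx, h2, h3⟩
        refine ⟨q x, hqD x hx, ⟨x, hx, h2, rfl⟩, ?_, ?_, ?_⟩
        · rw [h3]; trivial
        · rw [h3]; exact (hB' x hx _ ((hv2 x hx).trans hκγ)).2 le_rfl
        · intro z hz1 hz2 hz3 hz4
          rw [h3] at hz3
          cases z with
          | nat n => exact hz2.elim
          | pr a b => exact hz2.elim
          | ord z => exact absurd ((hB' x hx z (ord_mem.1 hz1)).1 hz4) (not_le.2 hz3)
    obtain ⟨b, hb, hb'⟩ := bound (S := F.M) F.g.m4k (hl0.trans hlκ) hκγ hlκ v hv2 hV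
    exact ⟨b, hb, fun x hx i hi => hv1 x hx i ((hb' x hx).le.trans hi)⟩
  have hw0 : 0 < F.w := F.g.wlim.bot_lt
  have hwκ : F.w < F.κ := F.g.wk
  -- thinness
  have hthin : ∀ i < F.κ, Thin F.M F.w (F.P i) (limN q l i) (limL q l i) := by
    intro i hi
    rintro ⟨f, r, hf1, hf2, hr, hf3⟩
    have hch : ∀ x, ∃ y, x < F.w → y < l ∧ f x < ln (q y) i ∧
        (∀ y' < y, ¬ f x < ln (q y') i) ∧ r ∈ nm (q y) i (f x) := by
      intro x
      by_cases hx : x < F.w
      · obtain ⟨y, h1, h2, h3, h4⟩ := (hf3 x hx).2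
        exact ⟨y, fun _ => ⟨h1, h2, h3, h4⟩⟩
      · exact ⟨0, fun h => absurd h hx⟩
    choose h hh using hch
    have hfη : ∀ x < F.w, f x < F.κ := fun x hx =>
      ((hh x hx).2.1.trans (hlen _ (hh x hx).1 i hi)).trans (F.e.lt i hi)
    have hhM : gro F.w h ∈ F.M :=
      first_mem hLNS (d := F.κ) (hi.trans hκγ) hqD hqM hf2
        (fun x hx => (hfη x hx).trans hκγ) (fun x hx => ⟨(hh x hx).1, (hh x hx).2.1,
        (hh x hx).2.2.1⟩) (hlκ.trans hκγ).le hwκ.le hlκ.le hκγ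
    obtain ⟨g, c, hg1, hg2, hg3⟩ := (hSPL F h hhM).1 ⟨l, hlw, fun x hx => (hh x hx).1⟩
    have hfg : gro F.w (fun x => f (g x)) ∈ F.M :=
      comp_mem (d := F.κ) hf2 hg3 (fun x hx => (hg2 x hx).1) (hwκ.trans hκγ).le hwκ.le hfη hκγ
    have hcl : c < l := by
      rw [← (hg2 0 hw0).2]
      exact (hh _ (hg2 0 hw0).1).1
    refine ((pun2 F.κ (q c)).1 (hqP c hcl)).thin i hi hi ⟨fun x => f (g x), r, ?_, hfg, hr, ?_⟩
    · intro x hx y hy hxy
      exact hf1 (hg2 x hx).1 (hg2 y hy).1 (hg1 hx hy hxy)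
    · intro x hx
      have h1 := hh (g x) (hg2 x hx).1
      rw [(hg2 x hx).2] at h1
      exact ⟨h1.2.1, h1.2.2.2⟩
  obtain ⟨p, hp, hpl, -⟩ := hLMT F l q hl hlκ hqM hqP hdec hbd hsupp hthin
  refine ⟨p, hp, fun n => ?_⟩
  have := hpl (n : O) (Ordinal.natCast_lt_omega0 n)
  simpa only [hq_def, nn_cast] using this

end Pool.Agent.Helper17.OD.PkCCL
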