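import Pool.Agent.Helper17.OD.GoalsGM
import Pool.Agent.Helper46.OD.TDC

/-!
# OD packet LSR: reflection
-/

namespace Pool.Agent.Helper17.OD.PkLSR

open Set

/-- The recursion pattern of truth. -/
def sk : Code → ℕ
  | .pr (.nat 0) (.pr _ _) => 0
  | .pr (.nat 1) (.pr _ _) => 0
  | .pr (.nat 2) _ => 0
  | .pr (.nat 3) (.pr _ _) => 0
  | .pr (.nat 4) (.pr _ (.pr _ _)) => 0
  | .pr (.nat 5) (.pr φ ψ) => sk φ + sk ψ
  | .pr (.nat 6) φ => sk φ
  | _ => 0

theorem D_mono' {a b : O} (h : a ≤ b) {t : T} (ht : t ∈ D (Iio a)) : t ∈ D (Iio b) :=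
  fun x hx => lt_of_lt_of_le (ht hx) h

theorem exists_bd {a : O} (ha : Order.IsSuccLimit a) : ∀ t : T, t ∈ D (Iio a) →
    ∃ d < a, t ∈ D (Iio d) := by
  intro t
  induction t with
  | nat n =>
    intro _
    refine ⟨0, ?_, fun _ hx => hx.elim⟩
    have := ha.1
    exact (pos_iff_ne_zero.2 fun h => this (by rw [h]; exact isMin_bot))
  | ord x =>
    intro h
    have hx : x < a := h rfl
    exact ⟨Order.succ x, ha.succ_lt hx, fun y hy => by
      rw [Set.mem_singleton_iff.1 hy]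
      exact Order.lt_succ x⟩
  | pr s t ihs iht =>
    intro h
    obtain ⟨d, hd, hs⟩ := ihs fun x hx => h (Or.inl hx)
    obtain ⟨d', hd', ht⟩ := iht fun x hx => h (Or.inr hx)
    refine ⟨max d d', max_lt hd hd', ?_⟩
    rintro x (hx | hx)
    · exact Set.mem_Iio.2 (lt_of_lt_of_le (Set.mem_Iio.1 (hs hx)) (le_max_left _ _))
    · exact Set.mem_Iio.2 (lt_of_lt_of_le (Set.mem_Iio.1 (ht hx)) (le_max_right _ _))

theorem claim {θ : O} (hR : RReg θ) (hl : Order.IsSuccLimit θ) (c : Code) :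
    ∃ g : O → O, (∀ d < θ, g d < θ) ∧ ∀ a ≤ θ, Order.IsSuccLimit a → (∀ d < a, g d < a) →
      ∀ e ∈ D (Iio a), (Tru a c e ↔ Tru θ c e) := by
  have h0 : (0 : O) < θ := pos_iff_ne_zero.2 fun h => hl.1 (by rw [h]; exact isMin_bot)
  fun_induction sk c with
  | case1 s t => exact ⟨fun _ => 0, fun _ _ => h0, fun a _ _ _ e _ => by
      rw [PkTDC.t_eq, PkTDC.t_eq]⟩
  | case2 s t => exact ⟨fun _ => 0, fun _ _ => h0, fun a _ _ _ e _ => by
      rw [PkTDC.t_lt, PkTDC.t_lt]⟩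
  | case3 s => exact ⟨fun _ => 0, fun _ _ => h0, fun a _ _ _ e _ => by
      rw [PkTDC.t_ord, PkTDC.t_ord]⟩
  | case4 s t => exact ⟨fun _ => 0, fun _ _ => h0, fun a _ _ _ e _ => by
      rw [PkTDC.t_lmem, PkTDC.t_lmem]⟩
  | case5 s u v =>
    refine ⟨fun _ => 0, fun _ _ => h0, fun a haθ _ _ e he => ?_⟩
    rw [PkTDC.t_tru, PkTDC.t_tru]
    constructor
    · rintro ⟨b, c, h1, h2, h3⟩
      exact ⟨b, c, h1, lt_of_lt_of_le h2 haθ, h3⟩
    · rintro ⟨b, c, h1, h2, h3⟩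
      refine ⟨b, c, h1, ?_, h3⟩
      have h4 : tval s e ∈ D (Iio a) := tval_mem he
      rw [h1] at h4
      exact h4 rfl
  | case6 φ ψ ih1 ih2 =>
    obtain ⟨g1, hg1, h1⟩ := ih1
    obtain ⟨g2, hg2, h2⟩ := ih2
    refine ⟨fun d => max (g1 d) (g2 d), fun d hd => max_lt (hg1 d hd) (hg2 d hd),
      fun a haθ hla hcl e he => ?_⟩
    rw [PkTDC.t_nand, PkTDC.t_nand,
      h1 a haθ hla (fun d hd => lt_of_le_of_lt (le_max_left _ _) (hcl d hd)) e he,
      h2 a haθ hla (fun d hd => lt_of_le_of_lt (le_max_right _ _) (hcl d hd)) e he]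
  | case7 φ ih =>
    obtain ⟨g1, hg1, h1⟩ := ih
    have hw : ∀ e : T, ∃ w < θ, (∃ x ∈ D (Iio θ), Tru θ φ (.pr x e)) →
        ∃ x ∈ D (Iio w), Tru θ φ (.pr x e) := by
      intro e
      by_cases h : ∃ x ∈ D (Iio θ), Tru θ φ (.pr x e)
      · obtain ⟨x, hx, hT⟩ := h
        obtain ⟨d, hd, hxd⟩ := exists_bd hl x hx
        exact ⟨d, hd, fun _ => ⟨x, hxd, hT⟩⟩
      · exact ⟨0, h0, fun h' => absurd h' h⟩
    choose w hwθ hw using hw
    have hb : ∀ d : O, ∃ b, d < θ → b < θ ∧ ∀ e ∈ D (Iio d), w e < b := by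
      intro d
      by_cases hd : d < θ
      · obtain ⟨b, hb, hb2⟩ := hR d hd w fun x _ => hwθ x
        exact ⟨b, fun _ => ⟨hb, hb2⟩⟩
      · exact ⟨0, fun h => absurd h hd⟩
    choose B hB using hb
    refine ⟨fun d => max (g1 d) (B d), fun d hd => max_lt (hg1 d hd) (hB d hd).1,
      fun a haθ hla hcl e he => ?_⟩
    have h2 := h1 a haθ hla (fun d hd => lt_of_le_of_lt (le_max_left _ _) (hcl d hd))
    rw [PkTDC.t_ex, PkTDC.t_ex]
    constructor
    · rintro ⟨x, hx, hT⟩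
      exact ⟨x, D_mono' haθ hx, (h2 _ (pr_mem.2 ⟨hx, he⟩)).1 hT⟩
    · intro h3
      obtain ⟨x, hx, hT⟩ := hw e h3
      obtain ⟨d, hd, hed⟩ := exists_bd hla e he
      have h4 : w e < a := by
        refine lt_of_lt_of_le ((hB d (lt_of_lt_of_le hd haθ)).2 e hed) ?_
        exact (le_max_right (g1 d) (B d)).trans (hcl d hd).le
      have hx2 : x ∈ D (Iio a) := D_mono' h4.le hx
      exact ⟨x, hx2, (h2 _ (pr_mem.2 ⟨hx2, he⟩)).2 hT⟩
  | case8 c h1 h2 h3 h4 h5 h6 h7 =>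
    refine ⟨fun _ => 0, fun _ _ => h0, fun a _ _ _ e _ => ?_⟩
    have : ∀ a : O, ¬ Tru a c e := by
      intro a
      rw [tru_eq]
      unfold stp
      split <;> simp_all
    exact iff_of_false (this a) (this θ)

theorem thm : G_LSR := by
  intro θ hR hl _ c b hb
  obtain ⟨g, hg, hcl⟩ := claim hR hl c
  have h0 : (0 : O) < θ := pos_iff_ne_zero.2 fun h => hl.1 (by rw [h]; exact isMin_bot)
  -- bounds of `g` on initial segments
  have hb' : ∀ d : O, ∃ b, d < θ → b < θ ∧ ∀ x < d, g x < b := by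
    intro d
    by_cases hd : d < θ
    · obtain ⟨b, hb, hb2⟩ := hR d hd (fun t => match t with | .ord x => g x | _ => 0) (by
        intro x hx
        match x with
        | .ord x => exact hg x (lt_trans (hx rfl) hd)
        | .nat n => exact h0
        | .pr s t => exact h0)
      refine ⟨b, fun _ => ⟨hb, fun x hx => ?_⟩⟩
      exact hb2 (.ord x) (fun y hy => by rw [Set.mem_singleton_iff.1 hy]; exact hx)
    · exact ⟨0, fun h => absurd h hd⟩
  choose B hB using hb'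
  let s : ℕ → O := fun n => Nat.rec (Order.succ b) (fun _ x => max (Order.succ x) (B x)) n
  have hs : ∀ n, s (n + 1) = max (Order.succ (s n)) (B (s n)) := fun n => rfl
  have hsθ : ∀ n, s n < θ := by
    intro n
    induction n with
    | zero => exact hl.succ_lt hb
    | succ n ih =>
      rw [hs]
      exact max_lt (hl.succ_lt ih) (hB _ ih).1
  obtain ⟨q, hq, hq2⟩ := hR 0 h0 (fun t => match t with | .nat n => s n | _ => 0) (by
    intro x hx
    match x with
    | .ord x => exact h0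
    | .nat n => exact hsθ n
    | .pr s t => exact h0)
  have hsq : ∀ n, s n < q := fun n => hq2 (.nat n) fun y hy => hy.elim
  have hbdd : BddAbove (range s) := ⟨q, by rintro _ ⟨n, rfl⟩; exact (hsq n).le⟩
  set a := ⨆ n, s n with ha
  have hle : ∀ n, s n ≤ a := fun n => le_ciSup hbdd n
  have hlt : ∀ n, s n < a := fun n => lt_of_lt_of_le (lt_of_lt_of_le (Order.lt_succ (s n))
    (le_max_left _ _)) (hle (n + 1))
  have hex : ∀ d < a, ∃ n, d < s n := fun d hd => exists_lt_of_lt_ciSup hd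
  have haq : a ≤ q := ciSup_le fun n => (hsq n).le
  have haθ : a < θ := lt_of_le_of_lt haq hq
  have hba : b < a := lt_trans (Order.lt_succ b) (hlt 0)
  have hlim : Order.IsSuccLimit a := by
    refine ⟨fun h => ?_, Order.isSuccPrelimit_of_succ_lt fun d hd => ?_⟩
    · exact absurd (h hba.le) (not_le.2 hba)
    · obtain ⟨n, hn⟩ := hex d hd
      exact lt_of_le_of_lt (Order.succ_le_of_lt hn) (hlt n)
  refine ⟨a, hba, haθ, hlim, hcl a haθ.le hlim fun d hd => ?_⟩
  obtain ⟨n, hn⟩ := hex d hd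
  exact lt_of_lt_of_le ((hB (s n) (hsθ n)).2 d hn) ((le_max_right _ _).trans (hle (n + 1)))

end Pool.Agent.Helper17.OD.PkLSR
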