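import Pool.Agent.Helper17.OD.GoalsCV

/-! OTP: order types of hulls (packet of project OD). -/

namespace Pool.Agent.Helper17.OD.PkOTP

open Set

/-- A strictly increasing map on an initial segment is above the identity. -/
theorem le_of_strictMonoOn {a' : O} {f : O → O} (hf : StrictMonoOn f (Iio a')) :
    ∀ x < a', x ≤ f x := by
  intro x
  induction x using WellFoundedLT.induction with
  | _ x ih =>
    intro hx
    by_contra hc
    rw [not_le] at hc
    have h1 := ih (f x) hc (hc.trans hx)
    exact absurd (hf (hc.trans hx) hx hc) (not_lt.2 h1)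

/-- If the range contains the ordinals below `d`, the map is the identity below `d`. -/
theorem eq_of_range {a' d : O} {f : O → O} (hf : StrictMonoOn f (Iio a')) (hd : d ≤ a')
    (hr : ∀ x < d, ∃ y < a', f y = x) : ∀ x < d, f x = x := by
  intro x
  induction x using WellFoundedLT.induction with
  | _ x ih =>
    intro hx
    have h1 := le_of_strictMonoOn hf x (hx.trans_le hd)
    rcases h1.lt_or_eq with h2 | h2
    · obtain ⟨y, hy, hyx⟩ := hr x hx
      have h3 : y < x := by
        by_contra hc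
        rw [not_lt] at hc
        have h4 : f x ≤ f y := hf.monotoneOn (hx.trans_le hd) hy hc
        rw [hyx] at h4
        exact absurd h2 (not_lt.2 h4)
      have h4 := ih y h3 (h3.trans hx)
      rw [h4] at hyx
      exact absurd hyx h3.ne
    · exact h2.symm

theorem thm (hCON4 : G_CON4) (hCUT : G_CUT) (hCLA : G_CLA) (hCLB : G_CLB)
    (hMAPT : G_MAPT.{2, 2}) : G_OTP := by
  intro α β hmin a φ u d p haα hu hd hda hp hcut a' f hf hrng
  by_contra hc
  rw [not_lt] at hc
  obtain ⟨-, hHa, hHb⟩ := hCLA a (av (.pr φ u)) (Iio d ∪ p.leaves)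
  have hfa : ∀ x < a', f x < a := fun x hx => hHa (hrng ▸ mem_image_of_mem f hx)
  have ha'a : a' ≤ a := by
    by_contra h1
    rw [not_le] at h1
    exact absurd (hfa a h1) (not_lt.2 (le_of_strictMonoOn hf a h1))
  have hda' : d ≤ a' := hd.le.trans hc
  have hAH : ∀ x ∈ Iio d ∪ p.leaves, ∃ y < a', f y = x := by
    intro x hx
    have hxa : x < a := by
      rcases hx with hx | hx
      · exact (show x < d from hx).trans_le hda
      · exact hp hx
    have h1 := hHb x hx hxa
    rw [← hrng] at h1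
    obtain ⟨y, hy, hyx⟩ := h1
    exact ⟨y, hy, hyx⟩
  have hid : ∀ x < d, f x = x := eq_of_range hf hda' (fun x hx => hAH x (Or.inl hx))
  obtain ⟨hm1, -, -, -, -, -, -, -, hm9, -⟩ := hMAPT O O f (Iio a') hf
  obtain ⟨p', hp', hpp⟩ := (hm9 p).1 (by
    intro x hx
    obtain ⟨y, hy, hyx⟩ := hAH x (Or.inr hx)
    exact ⟨y, hy, hyx⟩)
  have hA0 : Iio d ∪ p'.leaves ⊆ Iio a' := by
    rintro x (hx | hx)
    · exact (show x < d from hx).trans_le hda'
    · exact hp' hx
  have himg : f '' (Iio d ∪ p'.leaves) = Iio d ∪ p.leaves := by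
    rw [image_union, ← hm1 p', hpp]
    congr 1
    ext x
    constructor
    · rintro ⟨y, hy, rfl⟩
      rw [hid y hy]
      exact hy
    · intro hx
      exact ⟨x, hx, hid x hx⟩
  have key : ∀ x < a', TCl a' (fun ψ e => av (.pr φ u) ψ (e.map f)) (Iio d ∪ p'.leaves)
      (.ord x) := by
    intro x hx
    have h1 : f x ∈ Hull a (av (.pr φ u)) (Iio d ∪ p.leaves) := hrng ▸ mem_image_of_mem f hx
    have h2 : TCl a (av (.pr φ u)) (f '' (Iio d ∪ p'.leaves)) (.ord (f x)) := by
      rw [himg]; exact h1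
    obtain ⟨s, hs, hsx, hT⟩ := (hCON4 a a' f (.pr φ u) (Iio d ∪ p.leaves) hf hrng _ hA0 _).1 h2
    cases s with
    | nat n => simp [Tr.map] at hsx
    | pr s t => simp [Tr.map] at hsx
    | ord y =>
      have h3 : f y = f x := by simpa [Tr.map] using hsx
      have h4 : y = x := hf.injOn (show y ∈ Iio a' from hs rfl) hx h3
      rw [← h4]
      exact hT
  have hbase : ∀ (Q : Code → T → Prop), ∀ x ∈ Iio d ∪ p'.leaves, x < a' →
      x ∈ Hull a' Q (Iio d ∪ p'.leaves) := fun Q x hx hxa =>
    (hCLA a' Q (Iio d ∪ p'.leaves)).2.2 x hx hxa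
  rcases (ha'a.trans haα).lt_or_eq with hlt | heq
  · refine hmin a' hlt d hd p' hp' ?_
    intro x hx
    exact hCLB a' _ (fun _ _ => True) _ _ (fun _ _ _ _ => trivial) (hbase _) _
      (key x ((show x < β from hx).trans_le hc))
  · have haa : a = α := le_antisymm haα (heq ▸ ha'a)
    obtain ⟨u', hu', hav, -, -, hle⟩ := hCUT a' f φ u hf
    have hle' := hle (by rw [heq, ← haa]; exact hu)
    refine hcut haa u' (heq ▸ hu') hle' d hd p' (heq ▸ hp') ?_
    intro x hx
    rw [← heq]
    exact hCLB a' _ (av (.pr φ u')) _ _ (fun ψ e he h => (hav ψ e he).1 h) (hbase _) _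
      (key x ((show x < β from hx).trans_le hc))

end Pool.Agent.Helper17.OD.PkOTP
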