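import Pool.Agent.Helper17.OD.GoalsCV

/-! QHT: the limit cut (packet of project OD). -/

namespace Pool.Agent.Helper17.OD.PkQHT

open Set

variable {k : O} {I : Set T} {mt : T → T} {g : T → O → O} {l : O}

/-- Transport of trees along the parallel derivations. -/
theorem transport (hT : TSys I mt) (hL : Lim k I mt g l) {M M' : T} (hM : M ∈ I) (hM' : M' ∈ I)
    (h : mle M M') : ∀ t ∈ D (Iio (mA (mt M))), ∃ t' : T, PJ (mt M) (mt M') t t' ∧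
      t.map (g M) = t'.map (g M') ∧ t' ∈ D (Iio (mA (mt M'))) := by
  have hI := hT.im M hM M' hM' h
  intro t
  induction t with
  | nat n => intro _; exact ⟨.nat n, PJ.nat n, rfl, nat_mem _ _⟩
  | ord x =>
    intro ht
    obtain ⟨t', ht'⟩ := hI.tot _ ht
    have ho := hI.ord _ _ ht' trivial
    cases t' with
    | nat n => exact ho.elim
    | pr a b => exact ho.elim
    | ord x' =>
      refine ⟨.ord x', ht', ?_, (hI.dom _ _ ht').2⟩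
      exact congrArg Tr.ord (hL.comm M hM M' hM' h x x' ht')
  | pr s t ihs iht =>
    intro ht
    obtain ⟨hs1, ht1⟩ := pr_mem.1 ht
    obtain ⟨s', h1, h2, h3⟩ := ihs hs1
    obtain ⟨t', h4, h5, h6⟩ := iht ht1
    refine ⟨.pr s' t', PJ.pr h1 h4, ?_, pr_mem.2 ⟨h3, h6⟩⟩
    simp only [Tr.map]
    rw [h2, h5]

/-- Every tree below the limit comes from some mouse. -/
theorem cover (hT : TSys I mt) (hL : Lim k I mt g l) : ∀ e ∈ D (Iio l), ∃ M ∈ I,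
    ∃ e' ∈ D (Iio (mA (mt M))), e = e'.map (g M) := by
  intro e
  induction e with
  | nat n =>
    intro _
    obtain ⟨M, hM⟩ := hT.ne
    exact ⟨M, hM, .nat n, nat_mem _ _, rfl⟩
  | ord y =>
    intro he
    obtain ⟨M, hM, x, hx, hy⟩ := hL.onto y (ord_mem.1 he)
    exact ⟨M, hM, .ord x, ord_mem.2 hx, by rw [← hy]; rfl⟩
  | pr s t ihs iht =>
    intro he
    obtain ⟨hs, ht⟩ := pr_mem.1 he
    obtain ⟨M, hM, s', hs', h1⟩ := ihs hs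
    obtain ⟨M', hM', t', ht', h2⟩ := iht ht
    obtain ⟨M'', hM'', h3, h4⟩ := hT.dir M hM M' hM'
    obtain ⟨s'', -, h5, h6⟩ := transport hT hL hM hM'' h3 s' hs'
    obtain ⟨t'', -, h7, h8⟩ := transport hT hL hM' hM'' h4 t' ht'
    refine ⟨M'', hM'', .pr s'' t'', pr_mem.2 ⟨h6, h8⟩, ?_⟩
    simp only [Tr.map]
    rw [h1, h2, h5, h7]

theorem thm (hLTO : G_LTO.{2}) (hLTO0 : G_LTO.{0}) (hLTW : G_LTW.{2}) (hLTW0 : G_LTW.{0})
    (hOFC : G_OFC.{2}) (hMAPT : G_MAPT.{2, 2}) : G_QHT := by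
  intro k I mt g l hT hL
  obtain ⟨-, ltrans, ltri⟩ := hLTO O
  obtain ⟨-, -, ltri0⟩ := hLTO0 Empty
  obtain ⟨oinj, olt, -, -, -, -⟩ := hOFC O
  -- the available arguments of the limit
  obtain ⟨X, hX⟩ : ∃ X : Code → T → Prop, ∀ ψ e, X ψ e ↔ ∃ M ∈ I,
      ∃ e' ∈ D (Iio (mA (mt M))), e = e'.map (g M) ∧ av (mQ (mt M)) ψ e' :=
    ⟨_, fun _ _ => Iff.rfl⟩
  have down : ∀ (ψ : Code) (e : T), X ψ e → ∀ (ψ₁ : Code) (e₁ : T), e₁ ∈ D (Iio l) →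
      (ψ₁.lt ψ ∨ (ψ₁ = ψ ∧ e₁.lt e)) → X ψ₁ e₁ := by
    intro ψ e hXe ψ₁ e₁ he₁ hlt
    obtain ⟨M, hM, e', he', rfl, hav⟩ := (hX _ _).1 hXe
    obtain ⟨M₁, hM₁, e₁', he₁', rfl⟩ := cover hT hL e₁ he₁
    obtain ⟨M₂, hM₂, h3, h4⟩ := hT.dir M hM M₁ hM₁
    obtain ⟨e'', hPJ, h5, h6⟩ := transport hT hL hM hM₂ h3 e' he'
    obtain ⟨e₁'', -, h7, h8⟩ := transport hT hL hM₁ hM₂ h4 e₁' he₁'
    have hcut := (hT.im M hM M₂ hM₂ h3).cut _ _ _ hPJ hav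
    refine (hX _ _).2 ⟨M₂, hM₂, e₁'', h8, h7, ?_⟩
    obtain ⟨a, φ, u, d, p, hms, -⟩ := hT.ms M₂ hM₂
    have hq : mQ (mt M₂) = .pr (Tr.ofCode φ) u := by rw [hms]; rfl
    rw [hq] at hcut ⊢
    change ((Tr.ofCode ψ).lt (Tr.ofCode φ) ∨ (Tr.ofCode ψ = Tr.ofCode φ ∧ e''.lt u)) at hcut
    change ((Tr.ofCode ψ₁).lt (Tr.ofCode φ) ∨ (Tr.ofCode ψ₁ = Tr.ofCode φ ∧ e₁''.lt u))
    rcases hlt with hlt | ⟨rfl, hlt⟩
    · have h9 : (Tr.ofCode ψ₁ : T).lt (Tr.ofCode ψ) := (olt _ _).2 hlt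
      rcases hcut with hcut | ⟨hcut, -⟩
      · exact Or.inl (ltrans _ _ _ h9 hcut)
      · exact Or.inl (hcut ▸ h9)
    · rcases hcut with hcut | ⟨hcut, hcut'⟩
      · exact Or.inl hcut
      · refine Or.inr ⟨hcut, ltrans _ _ _ ?_ hcut'⟩
        obtain ⟨-, -, -, hm4, -⟩ := hMAPT O O (g M₂) (Iio (mA (mt M₂))) (hL.mono M₂ hM₂)
        rw [h5, h7] at hlt
        exact (hm4 e₁'' h8 e'' h6).1 hlt
  by_cases hall : ∀ (ψ : Code), ∀ e ∈ D (Iio l), X ψ e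
  · refine ⟨.nat 0, nat_mem _ _, fun ψ e he => ?_⟩
    rw [← hX]
    exact ⟨fun _ => hall ψ e he, fun _ => trivial⟩
  · push Not at hall
    have hex : ∃ ψ : Code, ∃ e ∈ D (Iio l), ¬ X ψ e := hall
    obtain ⟨ψ₀, ⟨e₀, he₀, hne₀⟩, hmin₀⟩ := (hLTW0 Empty).has_min {ψ : Code | ∃ e ∈ D (Iio l), ¬ X ψ e} hex
    obtain ⟨u₀, ⟨hu₀, hnu₀⟩, hmin₁⟩ := (hLTW O).has_min {e : T | e ∈ D (Iio l) ∧ ¬ X ψ₀ e}
      ⟨e₀, he₀, hne₀⟩
    refine ⟨.pr (Tr.ofCode ψ₀) u₀, pr_mem.2 ⟨?_, hu₀⟩, fun ψ e he => ?_⟩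
    · obtain ⟨-, -, ol, -⟩ := hOFC O
      change (Tr.ofCode ψ₀ : T).leaves ⊆ _
      rw [ol ψ₀]
      exact empty_subset _
    · rw [← hX]
      change ((Tr.ofCode ψ).lt (Tr.ofCode ψ₀) ∨ (Tr.ofCode ψ = Tr.ofCode ψ₀ ∧ e.lt u₀)) ↔ _
      constructor
      · rintro (h | ⟨h, h'⟩)
        · have h1 := (olt _ _).1 h
          by_contra hc
          exact hmin₀ ψ ⟨e, he, hc⟩ h1
        · have h1 := oinj _ _ h
          subst h1
          by_contra hc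
          exact hmin₁ e ⟨he, hc⟩ h'
      · intro h
        rcases ltri0 ψ ψ₀ with h1 | h1 | h1
        · exact Or.inl ((olt _ _).2 h1)
        · subst h1
          rcases ltri e u₀ with h2 | h2 | h2
          · exact Or.inr ⟨rfl, h2⟩
          · subst h2; exact (hnu₀ h).elim
          · exact (hnu₀ (down _ _ h _ _ hu₀ (Or.inr ⟨rfl, h2⟩))).elim
        · exact (hnu₀ (down _ _ h _ _ hu₀ (Or.inl h1))).elim

end Pool.Agent.Helper17.OD.PkQHT
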