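import Pool.Agent.Helper52.OD.Base

/-! BKH: bookkeeping (packet of project OD). -/

namespace Pool.Agent.Helper17.OD.PkBKH

open Set Pk52

/-- The pairs `(a, y)`, `a < η`, `y ∈ D (Iio μ)`. -/
def Wd (η μ : O) : Set T := {t | ∃ a < η, ∃ y ∈ D (Iio μ), t = .pr (.ord a) y}

/-- The lexicographic order of the pairs. -/
def Rd (η μ : O) : Set T := {p | ∃ s ∈ Wd η μ, ∃ t ∈ Wd η μ, p = .pr s t ∧
  (s.fst.llt t.fst ∨ (s.fst = t.fst ∧ s.snd.lt t.snd))}

theorem Wd_sub {η μ d : O} (h1 : η ≤ d) (h2 : μ ≤ d) : Wd η μ ⊆ D (Iio d) := by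
  rintro _ ⟨a, ha, y, hy, rfl⟩
  exact pr_mem.2 ⟨ord_mem.2 (ha.trans_le h1), D_mono (Iio_subset_Iio h2) hy⟩

theorem Wd_mem {k : O} {S : Set (Set T)} [h : SOM k S S] {η μ : O} (hη : η < k) (hμ : μ < k) :
    Wd η μ ∈ S := by
  refine SOM.of_SD (S := S) (max_lt hη hμ) (Wd_sub (le_max_left _ _) (le_max_right _ _)) ?_
  have h1 : SD k S S (fun e _ => e = .pr e.fst e.snd ∧ ((e.fst.IsOrd ∧ e.fst.llt (.ord η)) ∧
      e.snd ∈ D (Iio μ))) := by
    refine SD.and (SD.eq ST.id (ST.pr (ST.fst ST.id) (ST.snd ST.id))) (SD.and (SD.and ?_ ?_) ?_)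
    · exact SD.isOrd (ST.fst ST.id)
    · exact SD.llt (ST.fst ST.id) (ST.ordc hη)
    · exact SD.mem (ST.snd ST.id) (SV.par (D_mem hμ))
  refine h1.congr ?_
  intro e _ σ _
  constructor
  · rintro ⟨h2, ⟨h3, h4⟩, h5⟩
    cases h6 : e.fst with
    | nat n => rw [h6] at h3; exact h3.elim
    | pr a b => rw [h6] at h3; exact h3.elim
    | ord a =>
      rw [h6] at h4
      exact ⟨a, h4, e.snd, h5, by rw [← h6]; exact h2⟩
  · rintro ⟨a, ha, y, hy, rfl⟩
    exact ⟨rfl, ⟨trivial, ha⟩, hy⟩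

theorem Rd_mem (hTRE : G_TRE) {k : O} {S : Set (Set T)} [h : SOM k S S] {η μ : O} (hη : η < k)
    (hμ : μ < k) : Rd η μ ∈ S := by
  obtain ⟨-, hlt, -⟩ := hTRE k S S h
  have hW : Wd η μ ∈ S := Wd_mem (k := k) hη hμ
  refine SOM.of_SD (S := S) (max_lt hη hμ) ?_ ?_
  · rintro _ ⟨s, hs, t, ht, rfl, -⟩
    exact pr_mem.2 ⟨Wd_sub (le_max_left _ _) (le_max_right _ _) hs,
      Wd_sub (le_max_left _ _) (le_max_right _ _) ht⟩
  · have h1 : SD k S S (fun e _ => e = .pr e.fst e.snd ∧ (e.fst ∈ Wd η μ ∧ (e.snd ∈ Wd η μ ∧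
        (e.fst.fst.llt e.snd.fst ∨ (e.fst.fst = e.snd.fst ∧ e.fst.snd.lt e.snd.snd))))) := by
      refine SD.and (SD.eq ST.id (ST.pr (ST.fst ST.id) (ST.snd ST.id))) (SD.and ?_ (SD.and ?_
        (SD.or ?_ (SD.and ?_ ?_))))
      · exact SD.mem (ST.fst ST.id) (SV.par hW)
      · exact SD.mem (ST.snd ST.id) (SV.par hW)
      · exact SD.llt (ST.fst (ST.fst ST.id)) (ST.fst (ST.snd ST.id))
      · exact SD.eq (ST.fst (ST.fst ST.id)) (ST.fst (ST.snd ST.id))
      · exact SD.app2 (R := fun s t => s.lt t) hlt (ST.snd (ST.fst ST.id)) (ST.snd (ST.snd ST.id))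
    refine h1.congr ?_
    intro e _ σ _
    constructor
    · rintro ⟨h2, h3, h4, h5⟩
      exact ⟨e.fst, h3, e.snd, h4, h2, h5⟩
    · rintro ⟨s, hs, t, ht, rfl, h5⟩
      exact ⟨rfl, hs, ht, h5⟩

theorem Rd_iff {η μ a a' : O} {y y' : T} (ha : a < η) (ha' : a' < η) (hy : y ∈ D (Iio μ))
    (hy' : y' ∈ D (Iio μ)) : Tr.pr (.pr (.ord a) y) (.pr (.ord a') y') ∈ Rd η μ ↔
      a < a' ∨ (a = a' ∧ y.lt y') := by
  constructor
  · rintro ⟨s, hs, t, ht, he, h⟩
    injection he with h1 h2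
    subst h1 h2
    rcases h with h | ⟨h, h'⟩
    · exact Or.inl h
    · refine Or.inr ⟨?_, h'⟩
      have : (Tr.ord a : T) = Tr.ord a' := h
      injection this
  · intro h
    refine ⟨_, ⟨a, ha, y, hy, rfl⟩, _, ⟨a', ha', y', hy', rfl⟩, rfl, ?_⟩
    rcases h with h | ⟨rfl, h⟩
    · exact Or.inl h
    · exact Or.inr ⟨rfl, h⟩

theorem thm (hLTO : G_LTO.{2}) (hLTW : G_LTW.{2}) (hTRE : G_TRE) (hRNK : G_RNK) : G_BKH := by
  classical
  intro F j μ hj hμ
  have hM : SOM F.γ F.M F.M := F.g.m1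
  have hκγ : F.κ < F.γ := F.g.kg
  have hηκ : F.η j < F.κ := F.e.lt j hj
  have hηγ : F.η j < F.γ := hηκ.trans hκγ
  have hμγ : μ < F.γ := hμ.trans hηγ
  have hηl : Order.IsSuccLimit (F.η j) := F.e.lim j hj
  obtain ⟨-, -, ltri⟩ := hLTO O
  set η : O := F.η j with hη_def
  have hR : Rd η μ ∈ F.M := Rd_mem hTRE hηγ hμγ
  have hW : Wd η μ ∈ F.M := Wd_mem hηγ hμγ
  obtain ⟨hwf, ρ, b, hb, -, hρ, -, hgr⟩ := hRNK F.γ F.M F.M hM (Rd η μ) hR (by
    intro Y _ hY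
    by_cases hc : ∃ a : O, ∃ y, (Tr.pr (.ord a) y : T) ∈ Y
    · obtain ⟨a, ⟨y₀, hy₀⟩, hmin⟩ := (wellFounded_lt (α := O)).has_min
        {a : O | ∃ y, (Tr.pr (.ord a) y : T) ∈ Y} hc
      obtain ⟨y, hy, hmin'⟩ := (hLTW O).has_min {y : T | (Tr.pr (.ord a) y : T) ∈ Y} ⟨y₀, hy₀⟩
      refine ⟨.pr (.ord a) y, hy, ?_⟩
      rintro z hz ⟨s, ⟨a', ha', y', hy', rfl⟩, t, ht, he, h⟩
      injection he with h1 h2
      subst h1 h2
      rcases h with h | ⟨h, h'⟩
      · exact hmin a' ⟨y', hz⟩ h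
      · have h3 : (Tr.ord a' : T) = Tr.ord a := h
        injection h3 with h3
        subst h3
        exact hmin' y' hz h'
    · obtain ⟨y, hy⟩ := hY
      refine ⟨y, hy, ?_⟩
      rintro z hz ⟨s, hs, t, ⟨a', ha', y', hy', rfl⟩, he, h⟩
      injection he with h1 h2
      exact hc ⟨a', y', h2 ▸ hy⟩)
  have hlt : ∀ s t : T, Tr.pr s t ∈ Rd η μ → ρ s < ρ t := fun s t hst =>
    (hρ t (ρ s)).2 ⟨s, hst, le_rfl⟩
  have hgρ := hgr η hηγ
  -- the rank of `(a, y)` is at least `a`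
  have hge : ∀ a < η, ∀ y ∈ D (Iio μ), a ≤ ρ (.pr (.ord a) y) := by
    intro a
    induction a using WellFoundedLT.induction with
    | _ a ih =>
      intro ha y hy
      refine le_of_forall_lt (fun a' ha' => ?_)
      have h1 := ih a' ha' (ha'.trans ha) (.nat 0) (nat_mem _ _)
      refine h1.trans_lt (hlt _ _ ?_)
      exact (Rd_iff (ha'.trans ha) ha (nat_mem _ _) hy).2 (Or.inl ha')
  -- the values are below `η`
  have hval : ∀ t, t ∈ Wd η μ → ρ t < η := by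
    intro t
    induction t using hwf.induction with
    | _ t ih =>
      intro ht
      by_contra hc
      rw [not_lt] at hc
      have ht' := ht
      obtain ⟨a, ha, y, hy, rfl⟩ := ht'
      set t₀ : T := .pr (.ord a) y with ht₀
      have hd : max (Order.succ a) μ < η := max_lt (hηl.succ_lt ha) hμ
      set d : O := max (Order.succ a) μ with hd_def
      have hpre : ∀ s, Tr.pr s t₀ ∈ Rd η μ → s ∈ D (Iio d) ∧ ρ s < η := by
        intro s hs
        have hs' := hs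
        obtain ⟨s', ⟨a', ha', y', hy', rfl⟩, t', -, he, -⟩ := hs'
        injection he with h1 h2
        subst h1
        refine ⟨?_, ih _ hs ⟨a', ha', y', hy', rfl⟩⟩
        have h3 := (Rd_iff ha' ha hy' hy).1 hs
        have h4 : a' ≤ a := by
          rcases h3 with h3 | ⟨h3, -⟩
          · exact h3.le
          · exact h3.le
        exact pr_mem.2 ⟨ord_mem.2 ((Order.lt_succ_iff.2 h4).trans_le (le_max_left _ _)),
          D_mono (Iio_subset_Iio (le_max_right _ _)) hy'⟩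
      have hη0 : 0 < η := hηl.bot_lt
      let f : T → T := fun s => if Tr.pr s t₀ ∈ Rd η μ then .ord (ρ s) else .ord 0
      have hf1 : ∀ x ∈ D (Iio d), (f x).IsOrd ∧ f x ∈ D (Iio η) := by
        intro x _
        by_cases hx : Tr.pr x t₀ ∈ Rd η μ
        · simp only [f, if_pos hx]
          exact ⟨trivial, ord_mem.2 (hpre x hx).2⟩
        · simp only [f, if_neg hx]
          exact ⟨trivial, ord_mem.2 hη0⟩
      have ht₀γ : t₀ ∈ D (Iio F.γ) := Wd_sub hηγ.le hμγ.le ht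
      have hf2 : gr (D (Iio d)) f ∈ F.M := by
        refine SOM.of_SD (S := F.M) hηγ ?_ ?_
        · rintro _ ⟨x, hx, rfl⟩
          exact pr_mem.2 ⟨D_mono (Iio_subset_Iio hd.le) hx, (hf1 x hx).2⟩
        · have h1 : SD F.γ F.M F.M (fun e _ => e = .pr e.fst e.snd ∧ (e.fst ∈ D (Iio d) ∧
              ((Tr.pr e.fst t₀ ∈ Rd η μ ∧ Tr.pr e.fst e.snd ∈ gr (D (Iio η)) (fun x => .ord (ρ x))) ∨
                (¬ Tr.pr e.fst t₀ ∈ Rd η μ ∧ e.snd = .ord 0)))) := by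
            refine SD.and (SD.eq ST.id (ST.pr (ST.fst ST.id) (ST.snd ST.id))) (SD.and ?_ (SD.or
              (SD.and ?_ ?_) (SD.and (SD.not ?_) ?_)))
            · exact SD.mem (ST.fst ST.id) (SV.par (D_mem (hd.trans hηγ)))
            · exact SD.mem (ST.pr (ST.fst ST.id) (ST.const ht₀γ)) (SV.par hR)
            · exact SD.mem (ST.pr (ST.fst ST.id) (ST.snd ST.id)) (SV.par hgρ)
            · exact SD.mem (ST.pr (ST.fst ST.id) (ST.const ht₀γ)) (SV.par hR)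
            · exact SD.eq (ST.snd ST.id) (ST.ordc (hη0.trans hηγ))
          refine h1.congr ?_
          intro e _ σ _
          constructor
          · rintro ⟨h2, h3, h4⟩
            refine ⟨e.fst, h3, ?_⟩
            rcases h4 with ⟨h5, x, hx, h6⟩ | ⟨h5, h6⟩
            · injection h6 with h6 h7
              have : f e.fst = .ord (ρ e.fst) := by simp only [f, if_pos h5]
              rw [this]
              conv_lhs => rw [h2]
              rw [h7, h6]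
            · have : f e.fst = .ord 0 := by simp only [f, if_neg h5]
              rw [this]
              conv_lhs => rw [h2]
              rw [h6]
          · rintro ⟨x, hx, rfl⟩
            refine ⟨rfl, hx, ?_⟩
            change ((Tr.pr x t₀ ∈ Rd η μ ∧ Tr.pr x (f x) ∈ gr (D (Iio η)) (fun x => .ord (ρ x))) ∨
                (¬ Tr.pr x t₀ ∈ Rd η μ ∧ f x = .ord 0))
            by_cases h5 : Tr.pr x t₀ ∈ Rd η μ
            · refine Or.inl ⟨h5, x, D_mono (Iio_subset_Iio hd.le) hx, ?_⟩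
              simp only [f, if_pos h5]
            · refine Or.inr ⟨h5, ?_⟩
              simp only [f, if_neg h5]
      obtain ⟨b', hb', hb''⟩ := F.e.reg j hj d hd f hf1 hf2
      obtain ⟨s, hs, hs'⟩ := (hρ t₀ b').1 (hb'.trans_le hc)
      have h1 := hb'' s (hpre s hs).1
      simp only [f, if_pos hs] at h1
      exact absurd (ord_mem.1 h1) (not_lt.2 hs')
  have hinj : ∀ s ∈ Wd η μ, ∀ t ∈ Wd η μ, ρ s = ρ t → s = t := by
    rintro _ ⟨a, ha, y, hy, rfl⟩ _ ⟨a', ha', y', hy', rfl⟩ he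
    rcases lt_trichotomy a a' with h | h | h
    · exact absurd he (hlt _ _ ((Rd_iff ha ha' hy hy').2 (Or.inl h))).ne
    · subst h
      rcases ltri y y' with h1 | h1 | h1
      · exact absurd he (hlt _ _ ((Rd_iff ha ha' hy hy').2 (Or.inr ⟨rfl, h1⟩))).ne
      · rw [h1]
      · exact absurd he.symm (hlt _ _ ((Rd_iff ha' ha hy' hy).2 (Or.inr ⟨rfl, h1⟩))).ne
    · exact absurd he.symm (hlt _ _ ((Rd_iff ha' ha hy' hy).2 (Or.inl h))).ne
  let h : O → T := fun x => if hx : ∃ t ∈ Wd η μ, ρ t = x then hx.choose.snd else .nat 0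
  have hh1 : ∀ t ∈ Wd η μ, h (ρ t) = t.snd := by
    intro t ht
    have hx : ∃ t' ∈ Wd η μ, ρ t' = ρ t := ⟨t, ht, rfl⟩
    simp only [h, dif_pos hx]
    rw [hinj _ hx.choose_spec.1 t ht hx.choose_spec.2]
  have hh2 : ∀ x, (¬ ∃ t ∈ Wd η μ, ρ t = x) → h x = .nat 0 := by
    intro x hx
    simp only [h, dif_neg hx]
  have hh3 : ∀ x, h x ∈ D (Iio μ) := by
    intro x
    by_cases hx : ∃ t ∈ Wd η μ, ρ t = x
    · obtain ⟨t, ht, rfl⟩ := hx
      rw [hh1 t ht]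
      obtain ⟨a, ha, y, hy, rfl⟩ := ht
      exact hy
    · rw [hh2 x hx]
      exact nat_mem _ _
  refine ⟨h, fun x _ => hh3 x, ?_, ?_⟩
  · intro y hy a ha
    have ht : (Tr.pr (.ord a) y : T) ∈ Wd η μ := ⟨a, ha, y, hy, rfl⟩
    exact ⟨ρ (.pr (.ord a) y), hge a ha y hy, hval _ ht, hh1 _ ht⟩
  · refine grt_mem (d := η) ?_ le_rfl (fun x _ => D_mono (Iio_subset_Iio hμ.le) (hh3 x)) hηγ
    have h1 : SD F.γ F.M F.M (fun e _ => (e.fst.IsOrd ∧ e.fst.llt (.ord η)) ∧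
        ((∃ t ∈ D (Iio F.γ), (t ∈ Wd η μ ∧ (Tr.pr t e.fst ∈ gr (D (Iio η)) (fun x => .ord (ρ x)) ∧
          e.snd = t.snd))) ∨
        ((¬ ∃ t ∈ D (Iio F.γ), (t ∈ Wd η μ ∧ Tr.pr t e.fst ∈ gr (D (Iio η)) (fun x => .ord (ρ x)))) ∧
          e.snd = .nat 0))) := by
      refine SD.and (SD.and ?_ ?_) (SD.or ?_ (SD.and (SD.not ?_) ?_))
      · exact SD.isOrd (ST.fst ST.id)
      · exact SD.llt (ST.fst ST.id) (ST.ordc hηγ)
      · refine SD.exT (P := fun e t _ => (t ∈ Wd η μ ∧ (Tr.pr t e.fst ∈ gr (D (Iio η))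
          (fun x => .ord (ρ x)) ∧ e.snd = t.snd))) (SD.and ?_ (SD.and ?_ ?_))
        · exact SD.mem (ST.fst ST.id) (SV.par hW)
        · exact SD.mem (ST.pr (ST.fst ST.id) (ST.fst (ST.snd ST.id))) (SV.par hgρ)
        · exact SD.eq (ST.snd (ST.snd ST.id)) (ST.snd (ST.fst ST.id))
      · refine SD.exT (P := fun e t _ => (t ∈ Wd η μ ∧ Tr.pr t e.fst ∈ gr (D (Iio η))
          (fun x => .ord (ρ x)))) (SD.and ?_ ?_)
        · exact SD.mem (ST.fst ST.id) (SV.par hW)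
        · exact SD.mem (ST.pr (ST.fst ST.id) (ST.fst (ST.snd ST.id))) (SV.par hgρ)
      · exact SD.eq (ST.snd ST.id) (ST.nat 0)
    refine h1.congr ?_
    intro e _ σ _
    constructor
    · rintro ⟨⟨h2, h3⟩, h4⟩
      cases h6 : e.fst with
      | nat n => rw [h6] at h2; exact h2.elim
      | pr a b => rw [h6] at h2; exact h2.elim
      | ord x =>
        rw [h6] at h3 h4
        refine ⟨x, h3, rfl, ?_⟩
        rcases h4 with ⟨t, -, ht, ⟨t', ht', he⟩, h5⟩ | ⟨h5, h7⟩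
        · injection he with he1 he2
          subst he1
          have he3 : (Tr.ord x : T) = .ord (ρ t) := he2
          injection he3 with he3
          rw [h5, he3, hh1 t ht]
        · rw [h7, hh2 x]
          rintro ⟨t, ht, rfl⟩
          exact h5 ⟨t, Wd_sub hηγ.le hμγ.le ht, ht, t, Wd_sub le_rfl hμ.le ht, rfl⟩
    · rintro ⟨x, hx, h2, h3⟩
      rw [h2, h3]
      refine ⟨⟨trivial, hx⟩, ?_⟩
      by_cases hex : ∃ t ∈ Wd η μ, ρ t = x
      · obtain ⟨t, ht, rfl⟩ := hex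
        exact Or.inl ⟨t, Wd_sub hηγ.le hμγ.le ht, ht, ⟨t, Wd_sub le_rfl hμ.le ht, rfl⟩, hh1 t ht⟩
      · refine Or.inr ⟨?_, hh2 x hex⟩
        rintro ⟨t, -, ht, t', ht', he⟩
        injection he with he1 he2
        have he3 : (Tr.ord x : T) = .ord (ρ t') := he2
        injection he3 with he3
        exact hex ⟨t, ht, by rw [he3, he1]⟩

end Pool.Agent.Helper17.OD.PkBKH
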